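import Mathlib
import Pool.Agent.DpM.Extension

/-!
Non-forking formulas and definable types in dp-minimal theories: the statement of the question is
false.

The model `M` is the set of all pairs `(t, w)` of a natural number `t` (the length) and a word `w`
in `F_2^t`, with one quaternary relation: `P(y₁, y₂, z₁, z₂)` holds iff `y₁`, `y₂` have the same
length, `z₁`, `z₂` have the same length, the latter is at most the former, and the sum `z₁ + z₂`
is the restriction of the sum `y₁ + y₂`.  For an elementary extension `U` of `M` and a point `b`
of `U` outside `M`, the formula saying that `x₁`, `x₂` have the same length, longer than `b`, and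
that `x₁ + x₂` starts with the digit `1`, does not fork over `M` and lies in no global type
definable over `M`.

The definitions used by the statement (`DpMinimal`, `PForm`, `IsGlobalType`, `DefinableOver`,
`Divides`, `Forks`) are in `Pool.Agent.DpM.Defs`.
-/

namespace Pool.Agent.Results.MP_510d92_lc.NotDefinable

open FirstOrder Language Pool.Agent.DpM

universe u

/-- There are a language `L` and an `L`-structure `M` whose complete theory is dp-minimal such
that `M` has proper elementary extensions, and for every proper elementary extension `U` of `M`
(in particular every monster model) there is a formula `φ(x;b)` with parameters in `U` which does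
not fork over `M` but is contained in no global type which is definable over `M`. -/
theorem result :
    ∃ (L : FirstOrder.Language.{0, 0}) (M : Type) (_ : L.Structure M),
      DpMinimal.{u} (L.completeTheory M) ∧
      (∃ (U : Type u) (_ : L.Structure U) (j : M ↪ₑ[L] U), ∃ b : U, b ∉ Set.range j) ∧
      ∀ (U : Type u) [L.Structure U] (j : M ↪ₑ[L] U), (∃ b : U, b ∉ Set.range j) →
        ∃ θ : PForm L U 2, ¬ Forks j θ ∧
          ¬ ∃ p : Set (PForm L U 2), IsGlobalType p ∧ DefinableOver j p ∧ θ ∈ p := by
  refine ⟨Pool.Agent.DpM.L, Y, inferInstance, dpMinimal_Y, exists_proper_extension, ?_⟩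
  rintro U _ j ⟨b, hb⟩
  refine ⟨theta j b, not_forks j b, ?_⟩
  rintro ⟨p, hp, hdef, hmem⟩
  exact not_definable j hb p hp hdef hmem

end Pool.Agent.Results.MP_510d92_lc.NotDefinable
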